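import Mathlib

/-! Binomial averages. -/

set_option autoImplicit false

namespace Pool.Agent.TH237.RT

/-- the binomial average `∑ j, C(n, j) / 2 ^ n * g j` -/
noncomputable def E : ℕ → (ℕ → ℝ) → ℝ
  | 0, g => g 0
  | n + 1, g => (E n g + E n (fun j => g (j + 1))) / 2

theorem E_zero (g : ℕ → ℝ) : E 0 g = g 0 := rfl
theorem E_succ (n : ℕ) (g : ℕ → ℝ) : E (n + 1) g = (E n g + E n (fun j => g (j + 1))) / 2 := rfl

theorem E_lin (n : ℕ) : ∀ (x y : ℝ) (g h : ℕ → ℝ),
    E n (fun j => x * g j + y * h j) = x * E n g + y * E n h := by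
  induction n with
  | zero => intro x y g h; rfl
  | succ n ih =>
    intro x y g h
    rw [E_succ, ih, ih x y (fun j => g (j + 1)) (fun j => h (j + 1)), E_succ, E_succ]
    ring

theorem E_mono (n : ℕ) : ∀ (g h : ℕ → ℝ), (∀ j, g j ≤ h j) → E n g ≤ E n h := by
  induction n with
  | zero => intro g h hg; exact hg 0
  | succ n ih =>
    intro g h hg
    rw [E_succ, E_succ]
    have h1 := ih g h hg
    have h2 := ih (fun j => g (j + 1)) (fun j => h (j + 1)) (fun j => hg (j + 1))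
    linarith

theorem E_const (n : ℕ) (c : ℝ) : E n (fun _ => c) = c := by
  induction n with
  | zero => rfl
  | succ n ih =>
    rw [E_succ, ih]
    ring

theorem E_var (n : ℕ) : E n (fun j => ((n : ℝ) - 2 * j) ^ 2) = n := by
  induction n with
  | zero => simp [E]
  | succ n ih =>
    rw [E_succ]
    have e1 : (fun j : ℕ => (((n + 1 : ℕ) : ℝ) - 2 * j) ^ 2) =
        fun j : ℕ => 1 * ((n : ℝ) - 2 * j) ^ 2 + 1 * (1 + 2 * ((n : ℝ) - 2 * j)) := by
      funext j; push_cast; ring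
    have e2 : (fun j : ℕ => (((n + 1 : ℕ) : ℝ) - 2 * ((j + 1 : ℕ) : ℝ)) ^ 2) =
        fun j : ℕ => 1 * ((n : ℝ) - 2 * j) ^ 2 + 1 * (1 + (-2) * ((n : ℝ) - 2 * j)) := by
      funext j; push_cast; ring
    have e3 : (fun j : ℕ => 1 + 2 * ((n : ℝ) - 2 * j)) =
        fun j : ℕ => 1 * (1 : ℝ) + 2 * ((n : ℝ) - 2 * j) := by funext j; ring
    have e4 : (fun j : ℕ => 1 + (-2) * ((n : ℝ) - 2 * j)) =
        fun j : ℕ => 1 * (1 : ℝ) + (-2) * ((n : ℝ) - 2 * j) := by funext j; ring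
    rw [e1, e2, E_lin n 1 1, E_lin n 1 1, e3, e4,
      E_lin n 1 2 (fun _ => 1) (fun j => (n : ℝ) - 2 * j),
      E_lin n 1 (-2) (fun _ => 1) (fun j => (n : ℝ) - 2 * j), E_const, ih]
    push_cast
    ring

theorem E_diff (n : ℕ) : ∀ g : ℕ → ℝ, E n g - E n (fun j => g (j + 1)) =
    2 / ((n : ℝ) + 1) * E (n + 1) (fun j => ((n : ℝ) + 1 - 2 * j) * g j) := by
  induction n with
  | zero =>
    intro g
    rw [E_succ, E_zero, E_zero, E_zero, E_zero]
    push_cast
    ring
  | succ n ih =>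
    intro g
    have h1 := ih g
    have h2 := ih (fun j => g (j + 1))
    set D := E (n + 1) g - E (n + 1) (fun j => g (j + 1)) with hD
    have hn : (0 : ℝ) < (n : ℝ) + 1 := by positivity
    have e0 : D = 1 / ((n : ℝ) + 1) * (E (n + 1) (fun j => ((n : ℝ) + 1 - 2 * j) * g j) +
        E (n + 1) (fun j => ((n : ℝ) + 1 - 2 * j) * g (j + 1))) := by
      have : D = ((E n g - E n (fun j => g (j + 1))) +
        (E n (fun j => g (j + 1)) - E n (fun j => g (j + 1 + 1)))) / 2 := by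
        rw [hD, E_succ, E_succ]; ring
      rw [this, h1, h2]
      ring
    have e1 : (fun j : ℕ => (((n + 1 : ℕ) : ℝ) + 1 - 2 * j) * g j) =
        fun j : ℕ => 1 * (((n : ℝ) + 1 - 2 * j) * g j) + 1 * g j := by
      funext j; push_cast; ring
    have e2 : (fun j : ℕ => (((n + 1 : ℕ) : ℝ) + 1 - 2 * ((j + 1 : ℕ) : ℝ)) * g (j + 1)) =
        fun j : ℕ => 1 * (((n : ℝ) + 1 - 2 * j) * g (j + 1)) + (-1) * g (j + 1) := by
      funext j; push_cast; ring
    rw [E_succ (n + 1), e1, e2, E_lin (n + 1) 1 1 (fun j => ((n : ℝ) + 1 - 2 * j) * g j) g,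
      E_lin (n + 1) 1 (-1) (fun j => ((n : ℝ) + 1 - 2 * j) * g (j + 1)) (fun j => g (j + 1))]
    have e3 : E (n + 1) (fun j => ((n : ℝ) + 1 - 2 * j) * g j) +
        E (n + 1) (fun j => ((n : ℝ) + 1 - 2 * j) * g (j + 1)) = ((n : ℝ) + 1) * D := by
      rw [e0]; field_simp
    have e4 : (1 * E (n + 1) (fun j => ((n : ℝ) + 1 - 2 * j) * g j) + 1 * E (n + 1) g +
        (1 * E (n + 1) (fun j => ((n : ℝ) + 1 - 2 * j) * g (j + 1)) +
          (-1) * E (n + 1) (fun j => g (j + 1)))) / 2 = (((n : ℝ) + 1) * D + D) / 2 := by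
      rw [← e3, hD]; ring
    rw [e4]
    push_cast
    field_simp

/-- the shift changes the average of a function with values in `[-1, 1]` by at most `2/√(n+1)` -/
theorem E_shift (n : ℕ) (g : ℕ → ℝ) (h0 : ∀ j, |g j| ≤ 1) :
    |E n g - E n (fun j => g (j + 1))| ≤ 2 / √((n : ℝ) + 1) := by
  set m : ℝ := (n : ℝ) + 1 with hm
  have hm0 : 0 < m := by positivity
  have hs : 0 < √m := Real.sqrt_pos.2 hm0
  have hss : √m * √m = m := Real.mul_self_sqrt hm0.le
  have key : ∀ x : ℝ, |x| ≤ 1 / (2 * √m) * x ^ 2 + √m / 2 := by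
    intro x
    have h1 : 0 ≤ (|x| - √m) ^ 2 := sq_nonneg _
    have h2 : |x| ^ 2 = x ^ 2 := sq_abs x
    have h3 : 1 / (2 * √m) * x ^ 2 + √m / 2 = (x ^ 2 + m) / (2 * √m) := by
      field_simp
      nlinarith
    rw [h3, le_div_iff₀ (by positivity)]
    nlinarith
  have hup : E (n + 1) (fun j => 1 / (2 * √m) * (m - 2 * j) ^ 2 + √m / 2) = √m := by
    have e : (fun j : ℕ => 1 / (2 * √m) * (m - 2 * j) ^ 2 + √m / 2) =
        fun j : ℕ => 1 / (2 * √m) * (((n + 1 : ℕ) : ℝ) - 2 * j) ^ 2 + (√m / 2) * (1 : ℝ) := by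
      funext j; rw [hm]; push_cast; ring
    rw [e, E_lin (n + 1) _ _ (fun j : ℕ => (((n + 1 : ℕ) : ℝ) - 2 * j) ^ 2) (fun _ => 1), E_var,
      E_const]
    push_cast
    rw [← hm]
    field_simp
    nlinarith
  have hb : |E (n + 1) (fun j => (m - 2 * j) * g j)| ≤ √m := by
    rw [abs_le]
    constructor
    · have := E_mono (n + 1) (fun j => (-1) * (1 / (2 * √m) * (m - 2 * j) ^ 2 + √m / 2) + 0 * 0)
        (fun j => (m - 2 * j) * g j) (fun j => by
          have h1 := key (m - 2 * j)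
          have h2 : |(m - 2 * j) * g j| ≤ |m - 2 * j| := by
            rw [abs_mul]
            exact mul_le_of_le_one_right (abs_nonneg _) (h0 j)
          have h3 := neg_abs_le ((m - 2 * j) * g j)
          linarith)
      rw [E_lin (n + 1) (-1) 0 (fun j => 1 / (2 * √m) * (m - 2 * j) ^ 2 + √m / 2) (fun _ => 0), hup]
        at this
      linarith
    · rw [← hup]
      apply E_mono
      intro j
      have h1 := key (m - 2 * j)
      have h2 : |(m - 2 * j) * g j| ≤ |m - 2 * j| := by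
        rw [abs_mul]
        exact mul_le_of_le_one_right (abs_nonneg _) (h0 j)
      have h3 := le_abs_self ((m - 2 * j) * g j)
      linarith
  rw [E_diff, abs_mul, abs_of_pos (by positivity : 0 < 2 / ((n : ℝ) + 1)), ← hm]
  calc 2 / m * |E (n + 1) (fun j => (m - 2 * j) * g j)| ≤ 2 / m * √m :=
        mul_le_mul_of_nonneg_left hb (by positivity)
    _ = 2 / √m := by
        rw [div_mul_eq_mul_div, div_eq_div_iff (by positivity) (by positivity)]
        rw [mul_assoc, hss]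

end Pool.Agent.TH237.RT
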