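import Pool.Agent.TH237.RT.Lim
import Pool.Agent.H499R2.NDCor

/-! Invariant sets: rate of convergence to the natural density. -/

set_option autoImplicit false

namespace Pool.Agent.TH237.RT

open Filter Topology Pool.Agent.H499R2.ND Pool.Agent.H320R2.PD

theorem fd_Q {d : ℤ} {K : ℝ} (h : ∀ S : Set ℤ, Inv d S → ∀ t : ℝ, 1002 ≤ t →
      |Fd S t - (Fd S (t - Real.log 2) + Fd S (t + Real.log (3 / 2))) / 2| ≤ K / t ^ 2)
    {S : Set ℤ} (hS : Inv d S) : Q K 1002 (Fd S) where
  nonneg := Fd_nonneg S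
  le_one := Fd_le_one S
  harm t ht := h S hS t ht
  lip t s ht hs hs1 := Fd_lip S t s ht hs hs1

/-- from the window densities to the densities -/
theorem dyadic (S : Set ℤ) {l ε T : ℝ} (hε : 0 ≤ ε) (hl0 : 0 ≤ l) (hl1 : l ≤ 1)
    (h : ∀ t, T ≤ t → |Fd S t - l| ≤ ε) (k : ℕ) : ∀ X : ℝ, Real.exp T ≤ X →
      X ≤ Real.exp T * 2 ^ (k + 1) → |G S X - 3 * l * X| ≤ 3 * ε * X + 8 * Real.exp T := by
  have he := Real.exp_pos T
  have base : ∀ X : ℝ, Real.exp T ≤ X → X ≤ Real.exp T * 2 →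
      |G S X - 3 * l * X| ≤ 3 * ε * X + 8 * Real.exp T := by
    intro X h1 h2
    have hX : 0 < X := by linarith
    have g1 : G S X ≤ X := pos_card_le S hX.le
    have g2 := G_nonneg S X
    have g3 : l * X ≤ X := mul_le_of_le_one_left hX.le hl1
    have g4 : 0 ≤ l * X := by positivity
    have g5 : 0 ≤ ε * X := by positivity
    rw [abs_le]
    constructor <;> linarith
  induction k with
  | zero =>
    intro X h1 h2
    exact base X h1 (by simpa using h2)
  | succ k ih =>
    intro X h1 h2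
    rcases le_or_gt X (Real.exp T * 2) with h3 | h3
    · exact base X h1 h3
    · have h4 := ih (X / 2) (by linarith) (by rw [pow_succ] at h2; linarith)
      have hX : 0 < X := by linarith
      have h5 := h (Real.log (X / 2)) (by
        rw [Real.le_log_iff_exp_le (by linarith)]; linarith)
      have h6 : G S X = G S (X / 2) + 3 * (X / 2) * Fd S (Real.log (X / 2)) := by
        unfold Fd
        rw [Real.exp_log (by linarith), show 2 * (X / 2) = X by ring]
        field_simp
        ring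
      have h7 : G S X - 3 * l * X = (G S (X / 2) - 3 * l * (X / 2)) +
          3 * (X / 2) * (Fd S (Real.log (X / 2)) - l) := by rw [h6]; ring
      rw [h7]
      refine (abs_add_le _ _).trans ?_
      rw [abs_mul, abs_of_pos (by positivity : (0 : ℝ) < 3 * (X / 2))]
      have h8 : 3 * (X / 2) * |Fd S (Real.log (X / 2)) - l| ≤ 3 * (X / 2) * ε :=
        mul_le_mul_of_nonneg_left h5 (by positivity)
      linarith

/-- **rate of convergence to the natural density, uniformly in the invariant set** -/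
theorem density_rate {d : ℤ} (hd : Odd d) (hd3 : IsCoprime d 3) : ∃ C : ℝ, 0 < C ∧
    ∀ S : Set ℤ, Inv d S → ∃ δ : ℝ, 0 ≤ δ ∧ δ ≤ 1 ∧
      Tendsto (fun X : ℝ => G S X / X) atTop (𝓝 δ) ∧
      ∀ X : ℝ, 2 ≤ X → |G S X - δ * X| ≤ C * X / (Real.log X) ^ (1 / 30 : ℝ) := by
  obtain ⟨K, hK, hharm⟩ := Fd_harm hd hd3
  obtain ⟨A, C, hA, hC, hrate⟩ := rate K 1002 hK.le
  set B : ℝ := (2 * A) ^ (1 / 30 : ℝ) with hB
  have hA0 : 0 < 2 * A := by linarith
  have hB0 : 0 < B := Real.rpow_pos_of_pos hA0 _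
  refine ⟨(3 + 2 * (3 * C + 8)) * B, by positivity, fun S hS => ?_⟩
  obtain ⟨l, hl⟩ := Fd_tendsto hd hd3 hS
  have hl0 : 0 ≤ l := ge_of_tendsto' hl (Fd_nonneg S)
  have hl1 : l ≤ 1 := le_of_tendsto' hl (Fd_le_one S)
  have hr := hrate (Fd S) (fd_Q hharm hS) l hl
  -- the basic bound
  have hbas : ∀ n : ℕ, 1 ≤ n → ∀ X : ℝ, 0 < X → 2 * A * (n : ℝ) ^ 30 ≤ Real.log X →
      |G S X - 3 * l * X| ≤ (3 * C + 8) * X / n := by
    intro n hn X hX hlog
    have hn1 : (1 : ℝ) ≤ n := by exact_mod_cast hn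
    have hnp : (0 : ℝ) < n := by linarith
    have hnn30 : (n : ℝ) ≤ (n : ℝ) ^ 30 := le_self_pow₀ hn1 (by norm_num)
    set T : ℝ := A * (n : ℝ) ^ 30 with hT
    have hTn : (n : ℝ) ≤ T := by nlinarith
    have hXe : Real.exp (2 * T) ≤ X := by
      rw [← Real.le_log_iff_exp_le hX]; linarith
    have he2 : Real.exp (2 * T) = Real.exp T * Real.exp T := by rw [← Real.exp_add]; ring_nf
    have heT : (n : ℝ) ≤ Real.exp T := by
      have := Real.add_one_le_exp T
      linarith
    have he1 : 1 ≤ Real.exp T := Real.one_le_exp (by linarith)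
    have hXe1 : Real.exp T ≤ X := by nlinarith
    obtain ⟨k, hk⟩ := pow_unbounded_of_one_lt X (by norm_num : (1 : ℝ) < 2)
    have h1 := dyadic S (ε := C / n) (T := T) (by positivity) hl0 hl1 (hr n hn) k X hXe1 (by
      have h2 : (2 : ℝ) ^ k ≤ 2 ^ (k + 1) := pow_le_pow_right₀ (by norm_num) (by omega)
      have h3 : (2 : ℝ) ^ (k + 1) ≤ Real.exp T * 2 ^ (k + 1) :=
        le_mul_of_one_le_left (by positivity) he1
      linarith)
    refine h1.trans ?_
    have h2 : (n : ℝ) * Real.exp T ≤ X := by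
      calc (n : ℝ) * Real.exp T ≤ Real.exp T * Real.exp T :=
            mul_le_mul_of_nonneg_right heT (Real.exp_pos _).le
        _ ≤ X := by rw [← he2]; exact hXe
    rw [le_div_iff₀ hnp]
    have e : (3 * (C / n) * X + 8 * Real.exp T) * n = 3 * C * X + 8 * (n * Real.exp T) := by
      field_simp
    rw [e]
    linarith
  have hlim : Tendsto (fun X : ℝ => G S X / X) atTop (𝓝 (3 * l)) := by
    rw [Metric.tendsto_atTop]
    intro ε hε
    obtain ⟨n, hn⟩ := exists_nat_gt ((3 * C + 8) / ε)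
    have hnp : (0 : ℝ) < n := lt_of_le_of_lt (by positivity) hn
    have hn1 : 1 ≤ n := by
      have : 0 < n := by exact_mod_cast hnp
      omega
    refine ⟨Real.exp (2 * A * (n : ℝ) ^ 30), fun X hX => ?_⟩
    have hX0 : 0 < X := lt_of_lt_of_le (Real.exp_pos _) hX
    have h1 := hbas n hn1 X hX0 (by rw [Real.le_log_iff_exp_le hX0]; exact hX)
    rw [Real.dist_eq]
    have e : G S X / X - 3 * l = (G S X - 3 * l * X) / X := by field_simp
    rw [e, abs_div, abs_of_pos hX0, div_lt_iff₀ hX0]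
    refine lt_of_le_of_lt h1 ?_
    rw [div_lt_iff₀ hε] at hn
    rw [div_lt_iff₀ hnp]
    nlinarith
  have hδ0 : 0 ≤ 3 * l := by positivity
  have hδ1 : 3 * l ≤ 1 := by
    apply le_of_tendsto hlim
    filter_upwards [eventually_gt_atTop (0 : ℝ)] with X hX
    rw [div_le_one hX]
    exact pos_card_le S hX.le
  refine ⟨3 * l, hδ0, hδ1, hlim, fun X hX => ?_⟩
  have hX0 : 0 < X := by linarith
  have hL0 : 0 < Real.log X := Real.log_pos (by linarith)
  set L := Real.log X with hL
  have hLr : 0 < L ^ (1 / 30 : ℝ) := Real.rpow_pos_of_pos hL0 _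
  rcases lt_or_ge L (2 * A) with hlt | hge
  · have h1 : |G S X - 3 * l * X| ≤ 3 * X := by
      have g1 : G S X ≤ X := pos_card_le S hX0.le
      have g2 := G_nonneg S X
      have g3 : 3 * l * X ≤ X := mul_le_of_le_one_left hX0.le hδ1
      have g4 : 0 ≤ 3 * l * X := by positivity
      rw [abs_le]
      constructor <;> linarith
    refine h1.trans ?_
    rw [le_div_iff₀ hLr]
    have h2 : L ^ (1 / 30 : ℝ) ≤ B := Real.rpow_le_rpow hL0.le hlt.le (by norm_num)
    have h3 : 3 * X * L ^ (1 / 30 : ℝ) ≤ 3 * X * B := mul_le_mul_of_nonneg_left h2 (by positivity)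
    have h4 : 0 ≤ 2 * (3 * C + 8) * B * X := by positivity
    linarith
  · set y : ℝ := L ^ (1 / 30 : ℝ) / B with hy
    have hyB : B ≤ L ^ (1 / 30 : ℝ) := Real.rpow_le_rpow hA0.le hge (by norm_num)
    have hy1 : 1 ≤ y := by rw [hy, one_le_div hB0]; exact hyB
    set n := ⌊y⌋₊ with hn
    have hn1 : 1 ≤ n := by rw [hn, Nat.one_le_floor_iff]; exact hy1
    have hny : (n : ℝ) ≤ y := Nat.floor_le (by linarith)
    have hyn : y < n + 1 := Nat.lt_floor_add_one y
    have hn1' : (1 : ℝ) ≤ n := by exact_mod_cast hn1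
    have h1 := hbas n hn1 X hX0 (by
      have h2 : (n : ℝ) ^ 30 ≤ y ^ 30 := pow_le_pow_left₀ (by positivity) hny 30
      have h3 : y ^ 30 = L / (2 * A) := by
        have q : ∀ z : ℝ, 0 ≤ z → (z ^ (1 / 30 : ℝ)) ^ 30 = z := by
          intro z hz
          rw [← Real.rpow_natCast, ← Real.rpow_mul hz]
          norm_num
        rw [hy, div_pow, hB, q _ hL0.le, q _ hA0.le]
      rw [h3] at h2
      calc 2 * A * (n : ℝ) ^ 30 ≤ 2 * A * (L / (2 * A)) := mul_le_mul_of_nonneg_left h2 hA0.le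
        _ = L := by field_simp)
    refine h1.trans ?_
    rw [div_le_div_iff₀ (by linarith) hLr]
    have h4 : L ^ (1 / 30 : ℝ) = y * B := by rw [hy]; field_simp
    rw [h4]
    have h5 : y ≤ 2 * n := by linarith
    have h6 : (3 * C + 8) * X * (y * B) ≤ (3 * C + 8) * X * (2 * n * B) := by
      apply mul_le_mul_of_nonneg_left _ (by positivity)
      exact mul_le_mul_of_nonneg_right h5 hB0.le
    have h7 : 0 ≤ 3 * B * X * n := by positivity
    linarith

end Pool.Agent.TH237.RT
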