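import Pool.Agent.TH237.RT.Odd

/-! Sets of integers invariant under the `3x+1` function: rate of convergence. -/

set_option autoImplicit false

namespace Pool.Agent.TH237.RT

open Filter Topology Pool.Agent.H499R2.ND Pool.Agent.H320R2.PD

variable {s : ℤ} {S : Set ℤ}

/-- the number of the integers `n` of sign `s` in `S` with `|n| ≤ X` -/
noncomputable def ci (s : ℤ) (S : Set ℤ) (X : ℝ) : ℝ :=
  ({n : ℤ | 0 < s * n ∧ ((s * n : ℤ) : ℝ) ≤ X ∧ n ∈ S}.ncard : ℝ)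

theorem ci_bd (hs : s = 1 ∨ s = -1) (X : ℝ) :
    G {x | s * x ∈ S} X ≤ ci s S X ∧ ci s S X ≤ G {x | s * x ∈ S} X + 1 := by
  classical
  have hss : ∀ x : ℤ, s * (s * x) = x := by
    intro x; rcases hs with rfl | rfl <;> ring
  have hinj : Function.Injective (fun x : ℤ => s * x) := by
    intro a b hab
    have h1 : s * a = s * b := hab
    have h2 := hss a
    rw [h1, hss b] at h2
    exact h2.symm
  have himg : {n : ℤ | 0 < s * n ∧ ((s * n : ℤ) : ℝ) ≤ X ∧ n ∈ S} =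
      (fun x : ℤ => s * x) '' {x : ℤ | 1 ≤ x ∧ (x : ℝ) ≤ X ∧ s * x ∈ S} := by
    ext n
    rw [Set.mem_image]
    constructor
    · rintro ⟨h1, h2, h4⟩
      refine ⟨s * n, ⟨by omega, h2, ?_⟩, hss n⟩
      rw [hss]; exact h4
    · rintro ⟨x, ⟨h1, h2, h4⟩, rfl⟩
      refine ⟨?_, ?_, h4⟩
      · show 0 < s * (s * x)
        rw [hss]; omega
      · show ((s * (s * x) : ℤ) : ℝ) ≤ X
        rw [hss]; exact h2
  unfold ci
  rw [himg, Set.ncard_image_of_injective _ hinj]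
  set W := {x : ℤ | 1 ≤ x ∧ (x : ℝ) ≤ X ∧ s * x ∈ S} with hW
  set Pf := pos {x | s * x ∈ S} X with hPf
  have hsub1 : (Pf : Set ℤ) ⊆ W := by
    intro x hx
    rw [Finset.mem_coe, hPf, mem_pos] at hx
    exact ⟨hx.1.1, hx.1.2.le, hx.2⟩
  have hsub2 : W ⊆ insert ⌊X⌋ (Pf : Set ℤ) := by
    rintro x ⟨h1, h2, h4⟩
    rcases h2.lt_or_eq with h | h
    · right
      rw [Finset.mem_coe, hPf, mem_pos]
      exact ⟨⟨h1, h⟩, h4⟩
    · left
      rw [← h, Int.floor_intCast]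
  have hfin : W.Finite := ((Finset.finite_toSet Pf).insert _).subset hsub2
  constructor
  · have := Set.ncard_le_ncard hsub1 hfin
    rw [Set.ncard_coe_finset] at this
    unfold G
    exact_mod_cast this
  · have h1 := Set.ncard_le_ncard hsub2 ((Finset.finite_toSet Pf).insert _)
    have h2 := Set.ncard_insert_le ⌊X⌋ (Pf : Set ℤ)
    rw [Set.ncard_coe_finset] at h2
    unfold G
    exact_mod_cast h1.trans h2

theorem Td_ne_zero_iff (x : ℤ) : Td 1 x = 0 ↔ x = 0 := by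
  unfold Td
  split_ifs <;> omega

/-- an invariant set may be changed at `0` and on the other side -/
theorem restrict_inv (hs : s = 1 ∨ s = -1) (hS : ∀ x : ℤ, 0 < s * x → (x ∈ S ↔ Td 1 x ∈ S)) :
    Inv 1 {x | 0 < s * x ∧ x ∈ S} := by
  intro x
  have h := Td_one_sign hs x
  constructor
  · rintro ⟨h1, h2⟩
    exact ⟨h.1 h1, (hS x h1).1 h2⟩
  · rintro ⟨h1, h2⟩
    have h1' := h.2 h1
    exact ⟨h1', (hS x h1').2 h2⟩

/-- **rate of convergence for sets of integers invariant under the `3x+1` function** -/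
theorem int_rate : ∃ C : ℝ, 0 < C ∧ ∀ s : ℤ, (s = 1 ∨ s = -1) → ∀ S : Set ℤ,
    (∀ x : ℤ, 0 < s * x → (x ∈ S ↔ Td 1 x ∈ S)) →
    ∃ δ : ℝ, 0 ≤ δ ∧ δ ≤ 1 ∧ (δ = 0 ↔ ∀ n : ℤ, 0 < s * n → n ∉ S) ∧
      (δ = 1 ↔ ∀ n : ℤ, 0 < s * n → n ∈ S) ∧
      ∀ X : ℝ, 2 ≤ X → |ci s S X - δ * X| ≤ C * X / (Real.log X) ^ (1 / 30 : ℝ) := by
  obtain ⟨C1, hC1, hr1⟩ := density_rate (side_odd odd_one (Or.inl rfl : (1 : ℤ) = 1 ∨ _))
    (side_cop isCoprime_one_left (Or.inl rfl : (1 : ℤ) = 1 ∨ _))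
  obtain ⟨C2, hC2, hr2⟩ := density_rate (side_odd odd_one (Or.inr rfl : (-1 : ℤ) = 1 ∨ _))
    (side_cop isCoprime_one_left (Or.inr rfl : (-1 : ℤ) = 1 ∨ _))
  refine ⟨C1 + C2 + 1, by positivity, fun s hs S hS => ?_⟩
  have hinv := restrict_inv hs hS
  obtain ⟨δ, hδ0, hδ1, hlim, hr⟩ : ∃ δ : ℝ, 0 ≤ δ ∧ δ ≤ 1 ∧
      Tendsto (fun X : ℝ => G {x | s * x ∈ {x | 0 < s * x ∧ x ∈ S}} X / X) atTop (𝓝 δ) ∧
      ∀ X : ℝ, 2 ≤ X → |G {x | s * x ∈ {x | 0 < s * x ∧ x ∈ S}} X - δ * X| ≤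
        (C1 + C2) * X / (Real.log X) ^ (1 / 30 : ℝ) := by
    rcases hs with rfl | rfl
    · obtain ⟨δ, h0, h1, h2, h3⟩ := hr1 _ (side_inv odd_one (Or.inl rfl : (1 : ℤ) = 1 ∨ _) hinv)
      refine ⟨δ, h0, h1, h2, fun X hX => (h3 X hX).trans ?_⟩
      have hL : 0 < Real.log X := Real.log_pos (by linarith)
      gcongr
      linarith
    · obtain ⟨δ, h0, h1, h2, h3⟩ := hr2 _ (side_inv odd_one (Or.inr rfl : (-1 : ℤ) = 1 ∨ _) hinv)
      refine ⟨δ, h0, h1, h2, fun X hX => (h3 X hX).trans ?_⟩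
      have hL : 0 < Real.log X := Real.log_pos (by linarith)
      gcongr
      linarith
  have hHD : HD s {x | 0 < s * x ∧ x ∈ S} δ := hlim
  refine ⟨δ, hδ0, hδ1, ⟨?_, ?_⟩, ⟨?_, ?_⟩, ?_⟩
  · intro h0 n hn hnS
    have := one_pos hs hinv (a := n) ⟨hn, hnS⟩ hn hHD
    linarith
  · intro h
    exact one_eq_zero hs (fun a ha hpos => h a hpos ha.2) hHD
  · intro h1 n hn
    by_contra hnS
    have := one_lt hs hinv (a := n) (fun h => hnS h.2) hn hHD
    linarith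
  · intro h
    obtain ⟨l', _, _, hl'⟩ := dens_side odd_one isCoprime_one_left hs hinv.compl
    have h1 := HD_compl hHD hl'
    have h2 : l' = 0 := by
      apply one_eq_zero hs _ hl'
      intro a ha hpos
      exact ha ⟨hpos, h a hpos⟩
    linarith
  · intro X hX
    have hL0 : 0 < Real.log X := Real.log_pos (by linarith)
    have hLr : 0 < (Real.log X) ^ (1 / 30 : ℝ) := Real.rpow_pos_of_pos hL0 _
    have hE1 : 1 ≤ X / (Real.log X) ^ (1 / 30 : ℝ) := by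
      rw [one_le_div hLr]; exact log_pow_le hX
    obtain ⟨hb1, hb2⟩ := ci_bd (S := {x | 0 < s * x ∧ x ∈ S}) hs X
    have e : ci s {x | 0 < s * x ∧ x ∈ S} X = ci s S X := by
      unfold ci
      congr 2
      ext n
      constructor
      · rintro ⟨h1, h2, _, h4⟩; exact ⟨h1, h2, h4⟩
      · rintro ⟨h1, h2, h4⟩; exact ⟨h1, h2, h1, h4⟩
    rw [e] at hb1 hb2
    have h1 := hr X hX
    have e2 : (C1 + C2 + 1) * X / (Real.log X) ^ (1 / 30 : ℝ) =
        (C1 + C2) * X / (Real.log X) ^ (1 / 30 : ℝ) + X / (Real.log X) ^ (1 / 30 : ℝ) := by ring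
    rw [e2]
    rw [abs_le] at h1 ⊢
    constructor
    · linarith [h1.1, h1.2]
    · linarith [h1.1, h1.2]

end Pool.Agent.TH237.RT
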