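import Pool.Agent.TH237.RT.Osc

/-! Approximately harmonic functions for the steps `-log 2`, `log (3/2)`: rate of convergence. -/

set_option autoImplicit false

namespace Pool.Agent.TH237.RT

open Filter Topology

theorem small (n : ℕ) (hn : 0 < n) : ∃ u v : ℤ, (u ≠ 0 ∨ v ≠ 0) ∧
    ((|u| + |v| : ℤ) : ℝ) ≤ 4 * n ∧ |(u : ℝ) * Real.log 2 + v * Real.log 3| ≤ 1 / n := by
  have ha := a_bd
  have hc := c_bd
  have hn1 : (1 : ℝ) ≤ n := by exact_mod_cast hn
  obtain ⟨j, k, hk, hkn, hjk⟩ := Real.exists_int_int_abs_mul_sub_le (Real.log 3 / Real.log 2) hn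
  have hkr : (1 : ℝ) ≤ k := by exact_mod_cast hk
  have hknr : (k : ℝ) ≤ n := by exact_mod_cast hkn
  have hj := abs_le.1 hjk
  have h1 : 1 / ((n : ℝ) + 1) < 1 := by
    rw [div_lt_one (by positivity)]; linarith
  have hx : Real.log 3 / Real.log 2 ≤ 1.6 := by
    rw [div_le_iff₀ (by linarith)]; linarith
  have hx0 : 0 ≤ Real.log 3 / Real.log 2 := by
    apply div_nonneg <;> linarith
  have hj0 : 0 ≤ j := by
    by_contra hcon
    have h2 : j ≤ -1 := by omega
    have h3 : (j : ℝ) ≤ -1 := by exact_mod_cast h2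
    have h4 : 0 ≤ (k : ℝ) * (Real.log 3 / Real.log 2) := by positivity
    linarith [hj.2]
  have hj3 : (j : ℝ) ≤ 3 * n := by
    have h2 : (k : ℝ) * (Real.log 3 / Real.log 2) ≤ n * 1.6 := by
      apply mul_le_mul hknr hx hx0 (by positivity)
    linarith [hj.1]
  refine ⟨-j, k, Or.inr (by omega), ?_, ?_⟩
  · rw [abs_neg, abs_of_nonneg hj0, abs_of_pos hk]
    push_cast
    linarith
  · have e : ((-j : ℤ) : ℝ) * Real.log 2 + k * Real.log 3 =
        ((k : ℝ) * (Real.log 3 / Real.log 2) - j) * Real.log 2 := by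
      push_cast
      have : Real.log 2 ≠ 0 := by linarith
      field_simp
      ring
    rw [e, abs_mul, abs_of_pos (by linarith : 0 < Real.log 2)]
    calc |(k : ℝ) * (Real.log 3 / Real.log 2) - j| * Real.log 2
        ≤ 1 / ((n : ℝ) + 1) * 1 := by
          apply mul_le_mul hjk (by linarith) (by linarith) (by positivity)
      _ ≤ 1 / n := by
          rw [mul_one]
          apply one_div_le_one_div_of_le (by linarith)
          linarith

/-- oscillation on intervals of length `2` -/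
theorem osc (K T0 : ℝ) (hK : 0 ≤ K) : ∃ A C : ℝ, 1 ≤ A ∧ T0 ≤ A ∧ 0 < C ∧ ∀ F : ℝ → ℝ, Q K T0 F →
    ∀ n : ℕ, 1 ≤ n → ∀ t w : ℝ, A * (n : ℝ) ^ 30 ≤ t → 0 ≤ w → w ≤ 2 →
      |F (t + w) - F t| ≤ C / n := by
  obtain ⟨c0, hc0, hmeas⟩ := Pool.Agent.H319R2.measure
  have ha := a_bd
  have hc := c_bd
  set A1 : ℝ := max 4 (4 * T0) with hA1
  have hA4 : 4 ≤ A1 := le_max_left _ _
  have hA4' : 4 * T0 ≤ A1 := le_max_right _ _
  set R : ℝ := 4 * 4 ^ 14 / c0 with hR
  have hR0 : 0 < R := by positivity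
  refine ⟨A1 + R, (3 + 17 * K) * R + 20, by linarith, ?_, by positivity, ?_⟩
  · rcases le_or_gt T0 0 with h | h
    · linarith
    · linarith
  intro F hF n hn t w ht hw0 hw2
  have hn0 : 0 < n := hn
  have hn1 : (1 : ℝ) ≤ n := by exact_mod_cast hn
  have hnp : (0 : ℝ) < n := by linarith
  have hn30 : (1 : ℝ) ≤ (n : ℝ) ^ 30 := one_le_pow₀ hn1
  have hnn30 : (n : ℝ) ≤ (n : ℝ) ^ 30 := le_self_pow₀ hn1 (by norm_num)
  have hn1430 : (n : ℝ) ^ 14 ≤ (n : ℝ) ^ 30 := pow_le_pow_right₀ hn1 (by norm_num)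
  obtain ⟨u0, v0, huv0, hs0, hb0⟩ := small n hn0
  -- choose the sign
  obtain ⟨u, v, huv, hs, hpos, hb⟩ : ∃ u v : ℤ, (u ≠ 0 ∨ v ≠ 0) ∧
      ((|u| + |v| : ℤ) : ℝ) ≤ 4 * n ∧ 0 ≤ (u : ℝ) * Real.log 2 + v * Real.log 3 ∧
      (u : ℝ) * Real.log 2 + v * Real.log 3 ≤ 1 / n := by
    rcases le_total 0 ((u0 : ℝ) * Real.log 2 + v0 * Real.log 3) with h | h
    · exact ⟨u0, v0, huv0, hs0, h, (le_abs_self _).trans hb0⟩
    · refine ⟨-u0, -v0, by omega, by rw [abs_neg, abs_neg]; exact hs0, ?_, ?_⟩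
      · push_cast; linarith
      · have := neg_abs_le ((u0 : ℝ) * Real.log 2 + v0 * Real.log 3)
        push_cast
        linarith
  have hm := hmeas u v huv
  set θ : ℝ := (u : ℝ) * Real.log 2 + v * Real.log 3 with hθ
  rw [abs_of_nonneg hpos] at hm
  have hsn : (0 : ℝ) ≤ ((|u| + |v| : ℤ) : ℝ) := by
    have : 0 ≤ |u| + |v| := by positivity
    exact_mod_cast this
  have hm2 : c0 ≤ (4 * (n : ℝ)) ^ 13 * θ := by
    refine hm.trans ?_
    apply mul_le_mul_of_nonneg_right _ hpos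
    exact pow_le_pow_left₀ hsn hs 13
  have hθ0 : 0 < θ := by
    rcases hpos.lt_or_eq with h | h
    · exact h
    · rw [← h] at hm2; linarith
  set i := ⌊w / θ⌋₊ with hi
  have hi1 : (i : ℝ) * θ ≤ w := by
    have := Nat.floor_le (div_nonneg hw0 hθ0.le)
    rwa [← hi, le_div_iff₀ hθ0] at this
  have hi2 : w < ((i : ℝ) + 1) * θ := by
    have := Nat.lt_floor_add_one (w / θ)
    rwa [← hi, div_lt_iff₀ hθ0] at this
  have hi0 : (0 : ℝ) ≤ i := Nat.cast_nonneg i
  -- the number of steps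
  have hsteps : (i : ℝ) * (4 * n) ≤ R / 2 * (n : ℝ) ^ 14 := by
    have h1 : (i : ℝ) * c0 ≤ 2 * (4 * (n : ℝ)) ^ 13 := by
      calc (i : ℝ) * c0 ≤ i * ((4 * (n : ℝ)) ^ 13 * θ) := mul_le_mul_of_nonneg_left hm2 hi0
        _ = (4 * (n : ℝ)) ^ 13 * (i * θ) := by ring
        _ ≤ (4 * (n : ℝ)) ^ 13 * 2 := mul_le_mul_of_nonneg_left (hi1.trans hw2) (by positivity)
        _ = _ := by ring
    have h2 : R / 2 * (n : ℝ) ^ 14 = (2 * (4 * (n : ℝ)) ^ 13) * (4 * n) / c0 := by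
      rw [hR]; field_simp; ring
    rw [h2, le_div_iff₀ hc0]
    calc (i : ℝ) * (4 * n) * c0 = (i * c0) * (4 * n) := by ring
      _ ≤ 2 * (4 * (n : ℝ)) ^ 13 * (4 * n) := mul_le_mul_of_nonneg_right h1 (by positivity)
  set S : ℝ := ((|(i : ℤ) * u| + |(i : ℤ) * v| : ℤ) : ℝ) with hS
  have hSle : S ≤ R / 2 * (n : ℝ) ^ 14 := by
    refine le_trans ?_ hsteps
    have : (|(i : ℤ) * u| + |(i : ℤ) * v| : ℤ) = (i : ℤ) * (|u| + |v|) := by
      rw [abs_mul, abs_mul, abs_of_nonneg (by positivity : (0 : ℤ) ≤ i)]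
      ring
    rw [hS, this]
    push_cast
    push_cast at hs
    exact mul_le_mul_of_nonneg_left hs hi0
  have hS0 : 0 ≤ S := by
    have : 0 ≤ |(i : ℤ) * u| + |(i : ℤ) * v| := by positivity
    rw [hS]
    exact_mod_cast this
  -- the shifts
  have hn15 : (0 : ℝ) < (n : ℝ) ^ 15 := by positivity
  have hsq : ∀ x : ℝ, A1 * (n : ℝ) ^ 30 ≤ x → (3 + 17 * K) / √x ≤ (3 + 17 * K) / (n : ℝ) ^ 15 := by
    intro x hx
    apply div_le_div_of_nonneg_left (by positivity) hn15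
    apply Real.le_sqrt_of_sq_le
    rw [← pow_mul]
    norm_num
    nlinarith
  have hbig : ∀ x : ℝ, A1 * (n : ℝ) ^ 30 ≤ x → 4 ≤ x ∧ 4 * T0 ≤ x := by
    intro x hx
    have : A1 ≤ A1 * (n : ℝ) ^ 30 := le_mul_of_one_le_right (by linarith) hn30
    constructor <;> linarith
  have s2 : ∀ x, A1 * (n : ℝ) ^ 30 ≤ x →
      |F (x + Real.log 2) - F x| ≤ (3 + 17 * K) / (n : ℝ) ^ 15 := fun x hx =>
    (shift2 hF hK (hbig x hx).1 (hbig x hx).2).trans (hsq x hx)
  have s3 : ∀ x, A1 * (n : ℝ) ^ 30 ≤ x →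
      |F (x + Real.log 3) - F x| ≤ (3 + 17 * K) / (n : ℝ) ^ 15 := fun x hx => by
    refine le_trans ?_ (hsq x hx)
    refine (shift3 hF hK (hbig x hx).1 (hbig x hx).2).trans ?_
    gcongr
    norm_num
  have hRn : R / 2 * (n : ℝ) ^ 14 ≤ R / 2 * (n : ℝ) ^ 30 :=
    mul_le_mul_of_nonneg_left hn1430 (by positivity)
  have hl := lattice s2 s3 ((i : ℤ) * u) ((i : ℤ) * v) t (by
    rw [← hS]
    nlinarith)
  rw [← hS] at hl
  have e1 : (((i : ℤ) * u : ℤ) : ℝ) * Real.log 2 + (((i : ℤ) * v : ℤ) : ℝ) * Real.log 3 = i * θ := by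
    rw [hθ]; push_cast; ring
  rw [e1] at hl
  have hl2 : S * ((3 + 17 * K) / (n : ℝ) ^ 15) ≤ (3 + 17 * K) * R / n := by
    calc S * ((3 + 17 * K) / (n : ℝ) ^ 15) ≤ (R / 2 * (n : ℝ) ^ 14) * ((3 + 17 * K) / (n : ℝ) ^ 15) :=
          mul_le_mul_of_nonneg_right hSle (by positivity)
      _ = (3 + 17 * K) * R / n / 2 := by
          field_simp
      _ ≤ (3 + 17 * K) * R / n := by
          have : 0 ≤ (3 + 17 * K) * R / n := by positivity
          linarith
  -- the rest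
  set s : ℝ := w - i * θ with hsdef
  have hsn0 : 0 ≤ s := by linarith
  have hsn1 : s ≤ 1 / n := by nlinarith
  have h1n : 1 / (n : ℝ) ≤ 1 := by
    rw [div_le_one hnp]; exact hn1
  have hiθ : 0 ≤ (i : ℝ) * θ := by positivity
  have htn : (n : ℝ) ≤ t := by nlinarith
  have hlip := hF.lip (t + i * θ) s (by linarith) hsn0 (hsn1.trans h1n)
  have e2 : t + i * θ + s = t + w := by rw [hsdef]; ring
  rw [e2] at hlip
  have hexp : Real.exp (-(t + i * θ)) ≤ 1 / n := by
    rw [Real.exp_neg, ← one_div]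
    apply one_div_le_one_div_of_le hnp
    have := Real.add_one_le_exp (t + i * θ)
    linarith
  have e3 : ((3 + 17 * K) * R + 20) / (n : ℝ) = (3 + 17 * K) * R / n + 20 * (1 / n) := by ring
  rw [e3]
  rw [abs_le] at hlip hl ⊢
  constructor
  · linarith [hlip.1, hl.1]
  · linarith [hlip.2, hl.2]

/-- maximum principle -/
theorem maxp {K T0 : ℝ} {F : ℝ → ℝ} (h : Q K T0 F) (hK : 0 ≤ K) {T M : ℝ} (hT0 : T0 ≤ T)
    (hT : 1 ≤ T) (hM : ∀ t, T ≤ t → t ≤ T + 2 → F t ≤ M) (t : ℝ) (ht : T ≤ t) :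
    F t ≤ M + 8 * K / T := by
  have ha := a_bd
  have hc := c_bd
  have hb := b_eq
  have main : ∀ ε : ℝ, 0 < ε → ∀ t : ℝ, T ≤ t → F t ≤ M + 8 * K * (1 / T - 1 / t) + ε * t := by
    intro ε hε
    set D : ℝ → ℝ := fun t => F t - M - 8 * K * (1 / T - 1 / t) - ε * t with hD
    have hpos : ∀ t, T ≤ t → 0 ≤ 8 * K * (1 / T - 1 / t) := by
      intro t ht
      have : 1 / t ≤ 1 / T := one_div_le_one_div_of_le (by linarith) ht
      have : 0 ≤ 1 / T - 1 / t := by linarith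
      positivity
    have hbdd : BddAbove (D '' Set.Ici T) := by
      refine ⟨1 - M, ?_⟩
      rintro _ ⟨t, ht, rfl⟩
      have ht' : T ≤ t := ht
      have h1 := hpos t ht'
      have h2 := h.le_one t
      have h3 : 0 ≤ ε * t := by
        have : 0 ≤ t := by linarith
        positivity
      show F t - M - 8 * K * (1 / T - 1 / t) - ε * t ≤ 1 - M
      linarith
    set s := sSup (D '' Set.Ici T) with hs
    have hle : ∀ t, T ≤ t → D t ≤ s := fun t ht => le_csSup hbdd ⟨t, ht, rfl⟩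
    suffices hsle : s ≤ 0 by
      intro t ht
      have h1 := hle t ht
      have h2 : D t = F t - M - 8 * K * (1 / T - 1 / t) - ε * t := rfl
      linarith
    by_contra hcon
    push Not at hcon
    have hlt : max 0 (s - ε * 0.14) < s := max_lt hcon (by linarith)
    have hne : (D '' Set.Ici T).Nonempty := ⟨D T, T, (le_rfl : T ≤ T), rfl⟩
    obtain ⟨_, ⟨t1, ht1, rfl⟩, h1⟩ := exists_lt_of_lt_csSup hne hlt
    have ht1' : T ≤ t1 := ht1
    have h2 : 0 < D t1 := (le_max_left _ _).trans_lt h1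
    have h3 : s - ε * 0.14 < D t1 := (le_max_right _ _).trans_lt h1
    have hDt : D t1 = F t1 - M - 8 * K * (1 / T - 1 / t1) - ε * t1 := rfl
    rcases le_or_gt t1 (T + 2) with h4 | h4
    · have h5 := hM t1 ht1' h4
      have h6 := hpos t1 ht1'
      have h7 : 0 ≤ ε * t1 := by
        have : 0 ≤ t1 := by linarith
        positivity
      linarith
    · have h5 := (abs_le.1 (h.harm t1 (by linarith))).2
      have h6 := hle (t1 - Real.log 2) (by linarith)
      have h7 := hle (t1 + Real.log (3 / 2)) (by rw [hb]; linarith)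
      have hDa : D (t1 - Real.log 2) = F (t1 - Real.log 2) - M -
        8 * K * (1 / T - 1 / (t1 - Real.log 2)) - ε * (t1 - Real.log 2) := rfl
      have hDb : D (t1 + Real.log (3 / 2)) = F (t1 + Real.log (3 / 2)) - M -
        8 * K * (1 / T - 1 / (t1 + Real.log (3 / 2))) - ε * (t1 + Real.log (3 / 2)) := rfl
      have ht0 : 0 < t1 := by linarith
      have q1 : 1 / t1 + Real.log 2 / t1 ^ 2 ≤ 1 / (t1 - Real.log 2) := by
        rw [le_div_iff₀ (by linarith)]
        have : (1 / t1 + Real.log 2 / t1 ^ 2) * (t1 - Real.log 2) =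
            1 - (Real.log 2) ^ 2 / t1 ^ 2 := by field_simp; ring
        rw [this]
        have : 0 ≤ (Real.log 2) ^ 2 / t1 ^ 2 := by positivity
        linarith
      have q2 : 1 / t1 - Real.log (3 / 2) / t1 ^ 2 ≤ 1 / (t1 + Real.log (3 / 2)) := by
        rw [le_div_iff₀ (by rw [hb]; linarith)]
        have : (1 / t1 - Real.log (3 / 2) / t1 ^ 2) * (t1 + Real.log (3 / 2)) =
            1 - (Real.log (3 / 2)) ^ 2 / t1 ^ 2 := by field_simp; ring
        rw [this]
        have : 0 ≤ (Real.log (3 / 2)) ^ 2 / t1 ^ 2 := by positivity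
        linarith
      have q3 : K / t1 ^ 2 ≤ 4 * K * (Real.log 2 / t1 ^ 2 - Real.log (3 / 2) / t1 ^ 2) := by
        have e : 4 * K * (Real.log 2 / t1 ^ 2 - Real.log (3 / 2) / t1 ^ 2) =
            K / t1 ^ 2 * (4 * (Real.log 2 - Real.log (3 / 2))) := by ring
        rw [e]
        apply le_mul_of_one_le_right (by positivity)
        rw [hb]; linarith
      have q4 : 4 * K * (Real.log 2 / t1 ^ 2 - Real.log (3 / 2) / t1 ^ 2) ≤
          4 * K * (1 / (t1 - Real.log 2) + 1 / (t1 + Real.log (3 / 2)) - 2 * (1 / t1)) := by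
        apply mul_le_mul_of_nonneg_left _ (by positivity)
        linarith
      have q5 : ε * 0.14 ≤ ε * ((Real.log 2 - Real.log (3 / 2)) / 2) := by
        apply mul_le_mul_of_nonneg_left _ hε.le
        rw [hb]; linarith
      have q6 : D t1 - (D (t1 - Real.log 2) + D (t1 + Real.log (3 / 2))) / 2 =
          (F t1 - (F (t1 - Real.log 2) + F (t1 + Real.log (3 / 2))) / 2) -
          4 * K * (1 / (t1 - Real.log 2) + 1 / (t1 + Real.log (3 / 2)) - 2 * (1 / t1)) -
          ε * ((Real.log 2 - Real.log (3 / 2)) / 2) := by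
        rw [hDt, hDa, hDb]; ring
      linarith
  have hT' : 0 < T := by linarith
  have h1 : ∀ ε : ℝ, 0 < ε → F t ≤ M + 8 * K / T + ε := by
    intro ε hε
    have ht0 : 0 < t := by linarith
    have h2 := main (ε / t) (by positivity) t ht
    have h3 : ε / t * t = ε := by field_simp
    rw [h3] at h2
    have h4 : 0 ≤ 8 * K * (1 / t) := by positivity
    have h5 : 8 * K * (1 / T - 1 / t) = 8 * K / T - 8 * K * (1 / t) := by ring
    linarith
  exact le_of_forall_pos_le_add h1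

/-- the rate of convergence -/
theorem rate (K T0 : ℝ) (hK : 0 ≤ K) : ∃ A C : ℝ, 1 ≤ A ∧ 0 < C ∧ ∀ F : ℝ → ℝ, Q K T0 F →
    ∀ l : ℝ, Tendsto F atTop (𝓝 l) →
    ∀ n : ℕ, 1 ≤ n → ∀ t : ℝ, A * (n : ℝ) ^ 30 ≤ t → |F t - l| ≤ C / n := by
  obtain ⟨A, C, hA, hT0, hC, hosc⟩ := osc K T0 hK
  refine ⟨A, 2 * (C + 8 * K), hA, by positivity, fun F hF l hl n hn t ht => ?_⟩
  have hn1 : (1 : ℝ) ≤ n := by exact_mod_cast hn
  have hnp : (0 : ℝ) < n := by linarith
  have hn30 : (1 : ℝ) ≤ (n : ℝ) ^ 30 := one_le_pow₀ hn1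
  have hnn30 : (n : ℝ) ≤ (n : ℝ) ^ 30 := le_self_pow₀ hn1 (by norm_num)
  set T : ℝ := A * (n : ℝ) ^ 30 with hT
  have hTA : A ≤ T := le_mul_of_one_le_right (by linarith) hn30
  have hTn : (n : ℝ) ≤ T := by nlinarith
  have hTK : 8 * K / T ≤ 8 * K / n := div_le_div_of_nonneg_left (by positivity) hnp hTn
  have key : ∀ G : ℝ → ℝ, Q K T0 G → ∀ t, T ≤ t → G t ≤ G T + (C + 8 * K) / n := by
    intro G hG t ht
    have h1 := maxp hG hK (T := T) (M := G T + C / n) (hT0.trans hTA) (hA.trans hTA) (by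
      intro x hx hx2
      have h2 := hosc G hG n hn T (x - T) le_rfl (by linarith) (by linarith)
      rw [show T + (x - T) = x by ring] at h2
      have := (abs_le.1 h2).2
      linarith) t ht
    have e : (C + 8 * K) / (n : ℝ) = C / n + 8 * K / n := by ring
    rw [e]
    linarith
  have hab : ∀ t, T ≤ t → |F t - F T| ≤ (C + 8 * K) / n := by
    intro t ht
    have h1 := key F hF t ht
    have h2 := key (fun t => 1 - F t) hF.compl t ht
    rw [abs_le]
    constructor <;> linarith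
  have hl2 : |l - F T| ≤ (C + 8 * K) / n := by
    have h1 : Tendsto (fun t => |F t - F T|) atTop (𝓝 |l - F T|) :=
      (hl.sub_const _).abs
    apply le_of_tendsto h1
    filter_upwards [eventually_ge_atTop T] with t ht using hab t ht
  have h3 := hab t ht
  have e : 2 * (C + 8 * K) / (n : ℝ) = (C + 8 * K) / n + (C + 8 * K) / n := by ring
  rw [e]
  rw [abs_le] at h3 hl2 ⊢
  constructor <;> linarith [h3.1, h3.2, hl2.1, hl2.2]

end Pool.Agent.TH237.RT
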