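import Pool.Agent.TH237.RT.Dens

/-! Sets of odd integers invariant under the Syracuse map: rate of convergence. -/

set_option autoImplicit false

namespace Pool.Agent.TH237.RT

open Filter Topology Pool.Agent.H499R2.ND Pool.Agent.H320R2.PD

/-- the Syracuse map -/
def Sy (N : ℤ) : ℤ := (3 * N + 1) / 2 ^ padicValInt 2 (3 * N + 1)

theorem Sy_eq {N M : ℤ} {v : ℕ} (h : 3 * N + 1 = 2 ^ v * M) (hM : M % 2 = 1) : Sy N = M := by
  have hM0 : M ≠ 0 := by rintro rfl; norm_num at hM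
  have h1 : padicValInt 2 (3 * N + 1) = v := by
    rw [h, padicValInt.mul (by positivity) hM0]
    have h2 : padicValInt 2 M = 0 := padicValInt.eq_zero_of_not_dvd (by
      intro h3
      have : (2 : ℤ) ∣ M := by exact_mod_cast h3
      omega)
    have h3 : padicValInt 2 ((2 : ℤ) ^ v) = v := by
      have e : ((2 : ℤ) ^ v) = ((2 ^ v : ℕ) : ℤ) := by push_cast; ring
      rw [e, padicValInt.of_nat, padicValNat.prime_pow]
    rw [h2, h3, add_zero]
  unfold Sy
  rw [h1, h, Int.mul_ediv_cancel_left _ (by positivity)]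

theorem exists_pow (n : ℕ) : ∀ x : ℤ, x ≠ 0 → x.natAbs ≤ n →
    ∃ (v : ℕ) (M : ℤ), x = 2 ^ v * M ∧ M % 2 = 1 := by
  induction n with
  | zero => intro x hx h; omega
  | succ n ih =>
    intro x hx h
    rcases Int.emod_two_eq_zero_or_one x with h1 | h1
    · obtain ⟨v, M, h2, h3⟩ := ih (x / 2) (by omega) (by omega)
      refine ⟨v + 1, M, ?_, h3⟩
      have : x = 2 * (x / 2) := by omega
      rw [this, h2]
      ring
    · exact ⟨0, x, by simp, h1⟩

/-- `m` is the odd part of `x` -/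
def OP (x m : ℤ) : Prop := m % 2 = 1 ∧ ∃ e : ℕ, x = 2 ^ e * m

theorem OP_two {x m : ℤ} : OP (2 * x) m ↔ OP x m := by
  constructor
  · rintro ⟨h1, e, h2⟩
    refine ⟨h1, ?_⟩
    rcases e with _ | e
    · rw [pow_zero, one_mul] at h2; omega
    · refine ⟨e, ?_⟩
      rw [pow_succ] at h2
      have : (2 : ℤ) ^ e * 2 * m = 2 * (2 ^ e * m) := by ring
      rw [this] at h2
      omega
  · rintro ⟨h1, e, h2⟩
    exact ⟨h1, e + 1, by rw [h2, pow_succ]; ring⟩

theorem OP_odd {x m : ℤ} (hx : x % 2 = 1) : OP x m ↔ m = x := by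
  constructor
  · rintro ⟨h1, e, h2⟩
    rcases e with _ | e
    · rw [pow_zero, one_mul] at h2; exact h2.symm
    · exfalso
      rw [pow_succ] at h2
      have : (2 : ℤ) ^ e * 2 * m = 2 * (2 ^ e * m) := by ring
      rw [this] at h2
      omega
  · rintro rfl
    exact ⟨hx, 0, by simp⟩

theorem OP_Td {x : ℤ} (hx : x % 2 = 1) (m : ℤ) : OP (Td 1 x) m ↔ m = Sy x := by
  obtain ⟨w, M, h1, h2⟩ := exists_pow _ (3 * x + 1) (by omega) le_rfl
  have hS : Sy x = M := Sy_eq h1 h2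
  have hT : 2 * Td 1 x = 2 ^ w * M := by
    unfold Td
    rw [if_neg (by omega), ← h1]
    omega
  rw [← OP_two, hT, hS]
  have hpow : ∀ (w : ℕ), OP (2 ^ w * M) m ↔ OP M m := by
    intro w
    induction w with
    | zero => rw [pow_zero, one_mul]
    | succ w ih => rw [pow_succ, show (2 : ℤ) ^ w * 2 * M = 2 * (2 ^ w * M) by ring, OP_two, ih]
  rw [hpow, OP_odd h2]

/-- the integers of sign `s` whose odd part is in `S` -/
def Lift (s : ℤ) (S : Set ℤ) : Set ℤ := {x : ℤ | 0 < s * x ∧ ∃ m ∈ S, OP x m}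

variable {s : ℤ} {S : Set ℤ}

theorem lift_odd {x : ℤ} (hx : x % 2 = 1) (hx0 : 0 < s * x) : x ∈ Lift s S ↔ x ∈ S := by
  constructor
  · rintro ⟨_, m, hm, h⟩
    rw [OP_odd hx] at h
    rw [← h]; exact hm
  · intro h
    exact ⟨hx0, x, h, (OP_odd hx).2 rfl⟩

theorem OP_sign {x m : ℤ} (h : OP x m) (hx : 0 < s * x) : 0 < s * m := by
  obtain ⟨_, e, rfl⟩ := h
  have h1 : s * (2 ^ e * m) = 2 ^ e * (s * m) := by ring
  rw [h1] at hx
  exact pos_of_mul_pos_right hx (by positivity)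

theorem lift_inv (hs : s = 1 ∨ s = -1)
    (hS : ∀ N : ℤ, 0 < s * N → N % 2 = 1 → (N ∈ S ↔ Sy N ∈ S)) : Inv 1 (Lift s S) := by
  intro x
  have hsg := Td_one_sign hs x
  rcases Int.emod_two_eq_zero_or_one x with h | h
  · have e : x = 2 * Td 1 x := by unfold Td; rw [if_pos h]; omega
    constructor
    · rintro ⟨h1, m, hm, h2⟩
      refine ⟨hsg.1 h1, m, hm, ?_⟩
      rw [e] at h2
      exact OP_two.1 h2
    · rintro ⟨h1, m, hm, h2⟩
      refine ⟨hsg.2 h1, m, hm, ?_⟩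
      rw [e]
      exact OP_two.2 h2
  · constructor
    · rintro ⟨h1, m, hm, h2⟩
      rw [OP_odd h] at h2
      subst h2
      exact ⟨hsg.1 h1, Sy m, (hS m h1 h).1 hm, (OP_Td h _).2 rfl⟩
    · rintro ⟨h1, m, hm, h2⟩
      rw [OP_Td h] at h2
      have h1' := hsg.2 h1
      subst h2
      exact ⟨h1', x, (hS x h1' h).2 hm, (OP_odd h).2 rfl⟩

/-- the number of odd integers `N` of sign `s` in `S` with `|N| ≤ X` -/
noncomputable def ct (s : ℤ) (S : Set ℤ) (X : ℝ) : ℝ :=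
  ({N : ℤ | 0 < s * N ∧ ((s * N : ℤ) : ℝ) ≤ X ∧ N % 2 = 1 ∧ N ∈ S}.ncard : ℝ)

theorem G_split {P : Set ℤ} (h2 : ∀ x : ℤ, 2 * x ∈ P ↔ x ∈ P) (X : ℝ) :
    G P X = G {x | x % 2 = 1 ∧ x ∈ P} X + G P (X / 2) := by
  classical
  unfold G
  have hinj : Function.Injective (fun m : ℤ => 2 * m) := fun a b hab => by
    have : 2 * a = 2 * b := hab
    omega
  have hun : pos P X = pos {x | x % 2 = 1 ∧ x ∈ P} X ∪ (pos P (X / 2)).image (fun m : ℤ => 2 * m) := by
    ext x
    rw [Finset.mem_union, mem_pos, mem_pos, Finset.mem_image]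
    constructor
    · rintro ⟨⟨h1, h3⟩, h4⟩
      rcases Int.emod_two_eq_zero_or_one x with h | h
      · right
        obtain ⟨y, hy⟩ : ∃ y, x = 2 * y := ⟨x / 2, by omega⟩
        subst hy
        refine ⟨y, ?_, rfl⟩
        rw [mem_pos]
        push_cast at h3
        exact ⟨⟨by omega, by linarith⟩, (h2 y).1 h4⟩
      · exact Or.inl ⟨⟨h1, h3⟩, h, h4⟩
    · rintro (⟨⟨h1, h3⟩, _, h4⟩ | ⟨y, hy, rfl⟩)
      · exact ⟨⟨h1, h3⟩, h4⟩
      · rw [mem_pos] at hy
        obtain ⟨⟨h1, h3⟩, h4⟩ := hy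
        refine ⟨⟨?_, ?_⟩, (h2 y).2 h4⟩
        · show 1 ≤ 2 * y
          omega
        · show ((2 * y : ℤ) : ℝ) < X
          push_cast; linarith
  have hdisj : Disjoint (pos {x | x % 2 = 1 ∧ x ∈ P} X) ((pos P (X / 2)).image (fun m : ℤ => 2 * m)) := by
    rw [Finset.disjoint_left]
    intro x hx hx'
    rw [mem_pos] at hx
    rw [Finset.mem_image] at hx'
    obtain ⟨y, _, hy⟩ := hx'
    have h1 : x % 2 = 1 := hx.2.1
    have h3 : 2 * y = x := hy
    omega
  rw [hun, Finset.card_union_of_disjoint hdisj, Finset.card_image_of_injective _ hinj]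
  push_cast
  ring

theorem ct_bd (hs : s = 1 ∨ s = -1) (X : ℝ) :
    G {x | x % 2 = 1 ∧ s * x ∈ Lift s S} X ≤ ct s S X ∧
      ct s S X ≤ G {x | x % 2 = 1 ∧ s * x ∈ Lift s S} X + 1 := by
  classical
  have hss : ∀ x : ℤ, s * (s * x) = x := by
    intro x; rcases hs with rfl | rfl <;> ring
  have hpar : ∀ x : ℤ, (s * x) % 2 = 1 ↔ x % 2 = 1 := by
    intro x
    rcases hs with rfl | rfl <;> omega
  have hinj : Function.Injective (fun x : ℤ => s * x) := by
    intro a b hab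
    have h1 : s * a = s * b := hab
    have h2 := hss a
    rw [h1, hss b] at h2
    exact h2.symm
  have himg : {N : ℤ | 0 < s * N ∧ ((s * N : ℤ) : ℝ) ≤ X ∧ N % 2 = 1 ∧ N ∈ S} =
      (fun x : ℤ => s * x) '' {x : ℤ | 1 ≤ x ∧ (x : ℝ) ≤ X ∧ x % 2 = 1 ∧ s * x ∈ Lift s S} := by
    ext N
    rw [Set.mem_image]
    constructor
    · rintro ⟨h1, h2, h3, h4⟩
      refine ⟨s * N, ⟨by omega, h2, (hpar N).2 h3, ?_⟩, hss N⟩
      rw [hss]
      exact (lift_odd h3 h1).2 h4
    · rintro ⟨x, ⟨h1, h2, h3, h4⟩, rfl⟩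
      have h5 : (s * x) % 2 = 1 := (hpar x).2 h3
      have h6 : 0 < s * (s * x) := by rw [hss]; omega
      refine ⟨h6, ?_, h5, (lift_odd h5 h6).1 h4⟩
      show ((s * (s * x) : ℤ) : ℝ) ≤ X
      rw [hss]; exact h2
  unfold ct
  rw [himg, Set.ncard_image_of_injective _ hinj]
  set W := {x : ℤ | 1 ≤ x ∧ (x : ℝ) ≤ X ∧ x % 2 = 1 ∧ s * x ∈ Lift s S} with hW
  set Pf := pos {x | x % 2 = 1 ∧ s * x ∈ Lift s S} X with hPf
  have hsub1 : (Pf : Set ℤ) ⊆ W := by
    intro x hx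
    rw [Finset.mem_coe, hPf, mem_pos] at hx
    exact ⟨hx.1.1, hx.1.2.le, hx.2.1, hx.2.2⟩
  have hsub2 : W ⊆ insert ⌊X⌋ (Pf : Set ℤ) := by
    rintro x ⟨h1, h2, h3, h4⟩
    rcases h2.lt_or_eq with h | h
    · right
      rw [Finset.mem_coe, hPf, mem_pos]
      exact ⟨⟨h1, h⟩, h3, h4⟩
    · left
      rw [← h, Int.floor_intCast]
  have hfin : W.Finite := ((Finset.finite_toSet Pf).insert _).subset hsub2
  constructor
  · have := Set.ncard_le_ncard hsub1 hfin
    rw [Set.ncard_coe_finset] at this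
    unfold G
    exact_mod_cast this
  · have h1 := Set.ncard_le_ncard hsub2 ((Finset.finite_toSet Pf).insert _)
    have h2 := Set.ncard_insert_le ⌊X⌋ (Pf : Set ℤ)
    rw [Set.ncard_coe_finset] at h2
    unfold G
    exact_mod_cast h1.trans h2

theorem log_pow_le {X : ℝ} (hX : 2 ≤ X) : (Real.log X) ^ (1 / 30 : ℝ) ≤ X := by
  have hL : 0 < Real.log X := Real.log_pos (by linarith)
  have h1 : Real.log X ≤ X - 1 := Real.log_le_sub_one_of_pos (by linarith)
  rcases le_total (Real.log X) 1 with h | h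
  · have := Real.rpow_le_one hL.le h (by norm_num : (0 : ℝ) ≤ 1 / 30)
    linarith
  · have := Real.rpow_le_rpow_of_exponent_le h (by norm_num : (1 / 30 : ℝ) ≤ 1)
    rw [Real.rpow_one] at this
    linarith

/-- **rate of convergence for Syracuse-invariant sets of odd integers** -/
theorem odd_rate (hs : s = 1 ∨ s = -1) : ∃ C : ℝ, 0 < C ∧ ∀ S : Set ℤ,
    (∀ N : ℤ, 0 < s * N → N % 2 = 1 → (N ∈ S ↔ Sy N ∈ S)) →
    ∃ δ : ℝ, 0 ≤ δ ∧ δ ≤ 1 ∧ (δ = 0 ↔ ∀ N : ℤ, 0 < s * N → N % 2 = 1 → N ∉ S) ∧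
      (δ = 1 ↔ ∀ N : ℤ, 0 < s * N → N % 2 = 1 → N ∈ S) ∧
      ∀ X : ℝ, 2 ≤ X → |ct s S X - δ / 2 * X| ≤ C * X / (Real.log X) ^ (1 / 30 : ℝ) := by
  obtain ⟨C, hC, hrate⟩ := density_rate (side_odd odd_one hs) (side_cop isCoprime_one_left hs)
  refine ⟨C + (4 + C) * 2 + 1, by positivity, fun S hS => ?_⟩
  have hinv := lift_inv hs hS
  obtain ⟨δ, hδ0, hδ1, hlim, hr⟩ := hrate {x | s * x ∈ Lift s S} (side_inv odd_one hs hinv)
  have hHD : HD s (Lift s S) δ := hlim
  have hz : ∀ S : Set ℤ, (∀ N : ℤ, 0 < s * N → N % 2 = 1 → N ∉ S) → ∀ a ∈ Lift s S, ¬ 0 < s * a := by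
    rintro S h a ⟨h1, m, hm, h2⟩ -
    exact h m (OP_sign h2 h1) h2.1 hm
  refine ⟨δ, hδ0, hδ1, ⟨?_, ?_⟩, ⟨?_, ?_⟩, ?_⟩
  · intro h0 N hN hodd hNS
    have := one_pos hs hinv ((lift_odd hodd hN).2 hNS) hN hHD
    linarith
  · intro h
    exact one_eq_zero hs (hz S h) hHD
  · intro h1 N hN hodd
    by_contra hNS
    have := one_lt hs hinv (fun h => hNS ((lift_odd hodd hN).1 h)) hN hHD
    linarith
  · intro h
    obtain ⟨l', _, _, hl'⟩ := dens_side odd_one isCoprime_one_left hs hinv.compl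
    have h1 := HD_compl hHD hl'
    have h2 : l' = 0 := by
      apply one_eq_zero hs _ hl'
      intro a ha hpos
      apply ha
      obtain ⟨v, M, h3, h4⟩ := exists_pow _ a (by rintro rfl; simp at hpos) le_rfl
      have hOP : OP a M := ⟨h4, v, h3⟩
      exact ⟨hpos, M, h M (OP_sign hOP hpos) h4, hOP⟩
    linarith
  · intro X hX
    have hX0 : 0 < X := by linarith
    have hL0 : 0 < Real.log X := Real.log_pos (by linarith)
    have hLr : 0 < (Real.log X) ^ (1 / 30 : ℝ) := Real.rpow_pos_of_pos hL0 _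
    obtain ⟨hb1, hb2⟩ := ct_bd (S := S) hs X
    have hsp := G_split (P := {x | s * x ∈ Lift s S}) (fun x => by
      show s * (2 * x) ∈ Lift s S ↔ s * x ∈ Lift s S
      rw [show s * (2 * x) = 2 * (s * x) by ring]
      exact hinv.two _) X
    have e0 : {x : ℤ | x % 2 = 1 ∧ x ∈ {x : ℤ | s * x ∈ Lift s S}} =
        {x | x % 2 = 1 ∧ s * x ∈ Lift s S} := rfl
    rw [e0] at hsp
    have h1 := hr X hX
    set g := G {x | s * x ∈ Lift s S} with hg
    set E := X / (Real.log X) ^ (1 / 30 : ℝ) with hE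
    have hE1 : 1 ≤ E := by
      rw [hE, one_le_div hLr]; exact log_pow_le hX
    have hE' : C * X / (Real.log X) ^ (1 / 30 : ℝ) = C * E := by rw [hE]; ring
    rw [hE'] at h1
    have h2 : |g (X / 2) - δ * (X / 2)| ≤ (4 + C) * 2 * E := by
      rcases lt_or_ge X 4 with h4 | h4
      · have g1 : g (X / 2) ≤ X / 2 := pos_card_le _ (by linarith)
        have g2 : 0 ≤ g (X / 2) := G_nonneg _ _
        have g3 : δ * (X / 2) ≤ X / 2 := mul_le_of_le_one_left (by linarith) hδ1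
        have g4 : 0 ≤ δ * (X / 2) := by positivity
        have g5 : 0 ≤ C * 2 * E := by positivity
        rw [abs_le]
        constructor <;> nlinarith
      · have h3 := hr (X / 2) (by linarith)
        refine h3.trans ?_
        have hX2 : Real.log X ≤ 2 * Real.log (X / 2) := by
          have : Real.log X ≤ Real.log ((X / 2) ^ 2) := Real.log_le_log hX0 (by nlinarith)
          rw [Real.log_pow] at this
          push_cast at this
          exact this
        have h5 : (Real.log X) ^ (1 / 30 : ℝ) ≤ 2 * (Real.log (X / 2)) ^ (1 / 30 : ℝ) := by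
          have hp : 0 ≤ Real.log (X / 2) := by linarith
          calc (Real.log X) ^ (1 / 30 : ℝ) ≤ (2 * Real.log (X / 2)) ^ (1 / 30 : ℝ) :=
                Real.rpow_le_rpow hL0.le hX2 (by norm_num)
            _ = 2 ^ (1 / 30 : ℝ) * (Real.log (X / 2)) ^ (1 / 30 : ℝ) :=
                Real.mul_rpow (by norm_num) hp
            _ ≤ 2 * (Real.log (X / 2)) ^ (1 / 30 : ℝ) := by
                apply mul_le_mul_of_nonneg_right _ (Real.rpow_nonneg hp _)
                have := Real.rpow_le_rpow_of_exponent_le (by norm_num : (1 : ℝ) ≤ 2)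
                  (by norm_num : (1 / 30 : ℝ) ≤ 1)
                rwa [Real.rpow_one] at this
        have h6 : 0 < (Real.log (X / 2)) ^ (1 / 30 : ℝ) := Real.rpow_pos_of_pos (by linarith) _
        have h7 : C * (X / 2) / (Real.log (X / 2)) ^ (1 / 30 : ℝ) ≤ C * E := by
          rw [hE, ← mul_div_assoc C X ((Real.log X) ^ (1 / 30 : ℝ)), div_le_div_iff₀ h6 hLr]
          have : C * (X / 2) * (Real.log X) ^ (1 / 30 : ℝ) ≤
              C * (X / 2) * (2 * (Real.log (X / 2)) ^ (1 / 30 : ℝ)) :=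
            mul_le_mul_of_nonneg_left h5 (by positivity)
          linarith
        have : 0 ≤ (8 + C) * E := by positivity
        linarith
    have e1 : (C + (4 + C) * 2 + 1) * X / (Real.log X) ^ (1 / 30 : ℝ) =
        C * E + (4 + C) * 2 * E + E := by rw [hE]; ring
    rw [e1]
    rw [abs_le] at h1 h2 ⊢
    constructor
    · linarith [h1.1, h1.2, h2.1, h2.2]
    · linarith [h1.1, h1.2, h2.1, h2.2]

end Pool.Agent.TH237.RT
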