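import Pool.Agent.TH237.RT.Avg
import Pool.Agent.H319R2.Measure

/-! Approximately harmonic functions for the steps `-log 2`, `log (3/2)`: oscillation. -/

set_option autoImplicit false

namespace Pool.Agent.TH237.RT

/-- the properties used -/
structure Q (K T0 : ℝ) (F : ℝ → ℝ) : Prop where
  nonneg : ∀ t, 0 ≤ F t
  le_one : ∀ t, F t ≤ 1
  harm : ∀ t, T0 ≤ t → |F t - (F (t - Real.log 2) + F (t + Real.log (3 / 2))) / 2| ≤ K / t ^ 2
  lip : ∀ t s, 0 ≤ t → 0 ≤ s → s ≤ 1 → |F (t + s) - F t| ≤ 10 * (s + Real.exp (-t))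

theorem Q.compl {K T0 : ℝ} {F : ℝ → ℝ} (h : Q K T0 F) : Q K T0 (fun t => 1 - F t) where
  nonneg t := by have := h.le_one t; linarith
  le_one t := by have := h.nonneg t; linarith
  harm t ht := by
    have := h.harm t ht
    rw [← abs_neg]
    convert this using 2
    ring
  lip t s h1 h2 h3 := by
    have := h.lip t s h1 h2 h3
    rw [← abs_neg]
    convert this using 2
    ring

theorem a_bd : 0.69 < Real.log 2 ∧ Real.log 2 < 0.7 :=
  ⟨by linarith [Real.log_two_gt_d9], by linarith [Real.log_two_lt_d9]⟩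

theorem b_eq : Real.log (3 / 2) = Real.log 3 - Real.log 2 :=
  Real.log_div (by norm_num) (by norm_num)

theorem c_bd : 1.03 < Real.log 3 ∧ Real.log 3 < 1.1 := by
  have ha := a_bd
  constructor
  · -- 2 ^ 3 < 3 ^ 2
    have h : Real.log (2 ^ 3) < Real.log (3 ^ 2) := Real.log_lt_log (by norm_num) (by norm_num)
    rw [Real.log_pow, Real.log_pow] at h
    push_cast at h
    linarith
  · have h : Real.log (3 ^ 41) < Real.log (2 ^ 65) := Real.log_lt_log (by norm_num) (by norm_num)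
    rw [Real.log_pow, Real.log_pow] at h
    push_cast at h
    have := Real.log_two_lt_d9
    linarith

variable {K T0 : ℝ} {F : ℝ → ℝ}

/-- iteration of the harmonic relation -/
theorem iter (h : Q K T0 F) (hK : 0 ≤ K) {m : ℝ} (hm : 0 < m) (hm0 : T0 ≤ m) (n : ℕ) :
    ∀ t : ℝ, m ≤ t - n * Real.log 2 →
      |F t - E n (fun j => F (t + n * Real.log (3 / 2) - j * Real.log 3))| ≤ n * (K / m ^ 2) := by
  have ha := a_bd
  have hc := c_bd
  have hb := b_eq
  induction n with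
  | zero =>
    intro t ht
    rw [E_zero]
    simp
  | succ n ih =>
    intro t ht
    push_cast at ht
    have hn : (0 : ℝ) ≤ n := Nat.cast_nonneg n
    have h1 : m ≤ t := by nlinarith
    have h2 := h.harm t (hm0.trans h1)
    have h2' : K / t ^ 2 ≤ K / m ^ 2 := by
      apply div_le_div_of_nonneg_left hK (by positivity)
      gcongr
    have h3 := ih (t - Real.log 2) (by linarith)
    have h4 := ih (t + Real.log (3 / 2)) (by rw [hb]; linarith)
    rw [E_succ]
    have e1 : (fun j : ℕ => F (t + ((n + 1 : ℕ) : ℝ) * Real.log (3 / 2) - j * Real.log 3)) =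
        fun j : ℕ => F (t + Real.log (3 / 2) + n * Real.log (3 / 2) - j * Real.log 3) := by
      funext j; congr 1; push_cast; ring
    have e2 : (fun j : ℕ => F (t + ((n + 1 : ℕ) : ℝ) * Real.log (3 / 2) -
        ((j + 1 : ℕ) : ℝ) * Real.log 3)) =
        fun j : ℕ => F (t - Real.log 2 + n * Real.log (3 / 2) - j * Real.log 3) := by
      funext j; congr 1; rw [hb]; push_cast; ring
    rw [e1, e2]
    set A := E n (fun j => F (t - Real.log 2 + n * Real.log (3 / 2) - j * Real.log 3))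
    set B := E n (fun j => F (t + Real.log (3 / 2) + n * Real.log (3 / 2) - j * Real.log 3))
    rw [abs_le] at h2 h3 h4 ⊢
    push_cast
    constructor
    · linarith [h2.1, h3.1, h4.1]
    · linarith [h2.2, h3.2, h4.2]

/-- the shift by `log 3` -/
theorem shift3 (h : Q K T0 F) (hK : 0 ≤ K) {t : ℝ} (ht : 4 ≤ t) (ht0 : 4 * T0 ≤ t) :
    |F (t + Real.log 3) - F t| ≤ (3 + 16 * K) / √t := by
  have ha := a_bd
  have hc := c_bd
  have hb := b_eq
  set n := ⌊t / 2⌋₊ with hn
  have hn1 : (n : ℝ) ≤ t / 2 := Nat.floor_le (by positivity)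
  have hn2 : t / 2 < n + 1 := Nat.lt_floor_add_one _
  have hn0 : (0 : ℝ) ≤ n := Nat.cast_nonneg n
  have ht' : 0 < t := by linarith
  have hs : 0 < √t := Real.sqrt_pos.2 ht'
  have hss : √t * √t = t := Real.mul_self_sqrt ht'.le
  have h1 := iter h hK (m := t / 4) (by linarith) (by linarith) n t (by nlinarith)
  have h2 := iter h hK (m := t / 4) (by linarith) (by linarith) n (t + Real.log 3) (by nlinarith)
  have e : (fun j : ℕ => F (t + n * Real.log (3 / 2) - j * Real.log 3)) =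
      fun j : ℕ => (fun j : ℕ => F (t + Real.log 3 + n * Real.log (3 / 2) - j * Real.log 3)) (j + 1) := by
    funext j
    show _ = F _
    congr 1; push_cast; ring
  have h3 := E_shift n (fun j : ℕ => F (t + Real.log 3 + n * Real.log (3 / 2) - j * Real.log 3))
    (fun j => by rw [abs_of_nonneg (h.nonneg _)]; exact h.le_one _)
  rw [← e] at h3
  have h4 : 2 / √((n : ℝ) + 1) ≤ 3 / √t := by
    rw [div_le_div_iff₀ (Real.sqrt_pos.2 (by positivity)) hs]
    have h5 : √t ≤ √(2 * ((n : ℝ) + 1)) := Real.sqrt_le_sqrt (by linarith)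
    rw [Real.sqrt_mul (by norm_num)] at h5
    have h6 : √2 ≤ 1.5 := by
      rw [Real.sqrt_le_left (by norm_num)]
      norm_num
    have h7 : 0 ≤ √((n : ℝ) + 1) := Real.sqrt_nonneg _
    nlinarith
  have h5 : (n : ℝ) * (K / (t / 4) ^ 2) ≤ 8 * K / √t := by
    have h6 : (n : ℝ) * (K / (t / 4) ^ 2) ≤ t / 2 * (K / (t / 4) ^ 2) :=
      mul_le_mul_of_nonneg_right hn1 (by positivity)
    have h7 : t / 2 * (K / (t / 4) ^ 2) = 8 * K / t := by
      field_simp
      ring
    rw [h7] at h6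
    refine h6.trans ?_
    apply div_le_div_of_nonneg_left (by positivity) hs
    have : 1 ≤ √t := by
      rw [Real.one_le_sqrt]; linarith
    nlinarith
  have h6 : (3 + 16 * K) / √t = 3 / √t + 2 * (8 * K / √t) := by ring
  rw [h6]
  rw [abs_le] at h1 h2 h3 ⊢
  constructor
  · linarith [h1.1, h1.2, h2.1, h2.2, h3.1, h3.2]
  · linarith [h1.1, h1.2, h2.1, h2.2, h3.1, h3.2]

/-- the shift by `log 2` -/
theorem shift2 (h : Q K T0 F) (hK : 0 ≤ K) {t : ℝ} (ht : 4 ≤ t) (ht0 : 4 * T0 ≤ t) :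
    |F (t + Real.log 2) - F t| ≤ (3 + 17 * K) / √t := by
  have ha := a_bd
  have hc := c_bd
  have hb := b_eq
  have ht' : 0 < t := by linarith
  have hs : 0 < √t := Real.sqrt_pos.2 ht'
  have hss : √t * √t = t := Real.mul_self_sqrt ht'.le
  have h1 := h.harm (t + Real.log 2) (by
    rcases le_or_gt 0 T0 with h0 | h0
    · linarith
    · linarith)
  have e1 : t + Real.log 2 - Real.log 2 = t := by ring
  have e2 : t + Real.log 2 + Real.log (3 / 2) = t + Real.log 3 := by rw [hb]; ring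
  rw [e1, e2] at h1
  have h2 := shift3 h hK ht ht0
  have h3 : K / (t + Real.log 2) ^ 2 ≤ K / √t := by
    apply div_le_div_of_nonneg_left hK hs
    have : 1 ≤ √t := by
      rw [Real.one_le_sqrt]; linarith
    nlinarith
  have h4 : (3 + 17 * K) / √t = (3 + 16 * K) / √t + K / √t := by ring
  have h5 : 0 ≤ (3 + 16 * K) / √t := by positivity
  rw [h4]
  rw [abs_le] at h1 h2 ⊢
  constructor
  · linarith [h1.1, h1.2, h2.1, h2.2]
  · linarith [h1.1, h1.2, h2.1, h2.2]

theorem up_iter {s ε m : ℝ} (hs : 0 ≤ s) (h : ∀ x, m ≤ x → |F (x + s) - F x| ≤ ε) (i : ℕ) :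
    ∀ x, m ≤ x → |F (x + i * s) - F x| ≤ i * ε := by
  induction i with
  | zero => intro x _; simp
  | succ i ih =>
    intro x hx
    have h1 := ih x hx
    have h2 := h (x + i * s) (by
      have : 0 ≤ (i : ℝ) * s := by positivity
      linarith)
    have e : x + ((i + 1 : ℕ) : ℝ) * s = x + i * s + s := by push_cast; ring
    rw [e]
    push_cast
    rw [abs_le] at h1 h2 ⊢
    constructor
    · linarith [h1.1, h2.1]
    · linarith [h1.2, h2.2]

/-- the shift by `u log 2 + v log 3` -/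
theorem lattice {ε m : ℝ} (h2 : ∀ x, m ≤ x → |F (x + Real.log 2) - F x| ≤ ε)
    (h3 : ∀ x, m ≤ x → |F (x + Real.log 3) - F x| ≤ ε) (u v : ℤ) (t : ℝ)
    (ht : m + 2 * (|u| + |v| : ℤ) ≤ t) :
    |F (t + (u * Real.log 2 + v * Real.log 3)) - F t| ≤ (|u| + |v| : ℤ) * ε := by
  have ha := a_bd
  have hc := c_bd
  obtain ⟨u1, u2, hu, hu'⟩ : ∃ u1 u2 : ℕ, u = (u1 : ℤ) - u2 ∧ |u| = (u1 : ℤ) + u2 := by
    rcases le_total 0 u with hu | hu
    · exact ⟨u.toNat, 0, by omega, by rw [abs_of_nonneg hu]; omega⟩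
    · exact ⟨0, (-u).toNat, by omega, by rw [abs_of_nonpos hu]; omega⟩
  obtain ⟨v1, v2, hv, hv'⟩ : ∃ v1 v2 : ℕ, v = (v1 : ℤ) - v2 ∧ |v| = (v1 : ℤ) + v2 := by
    rcases le_total 0 v with hv | hv
    · exact ⟨v.toNat, 0, by omega, by rw [abs_of_nonneg hv]; omega⟩
    · exact ⟨0, (-v).toNat, by omega, by rw [abs_of_nonpos hv]; omega⟩
  rw [hu', hv'] at ht ⊢
  rw [hu, hv]
  push_cast at ht ⊢
  have p1 : (0 : ℝ) ≤ u1 := Nat.cast_nonneg _
  have p2 : (0 : ℝ) ≤ u2 := Nat.cast_nonneg _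
  have p3 : (0 : ℝ) ≤ v1 := Nat.cast_nonneg _
  have p4 : (0 : ℝ) ≤ v2 := Nat.cast_nonneg _
  set z : ℝ := t - u2 * Real.log 2 - v2 * Real.log 3 with hz
  have hzm : m ≤ z := by
    have : (u2 : ℝ) * Real.log 2 ≤ u2 * 2 := by nlinarith
    have : (v2 : ℝ) * Real.log 3 ≤ v2 * 2 := by nlinarith
    linarith
  have g1 := up_iter (by linarith) h2 u2 z hzm
  have g2 := up_iter (by linarith) h3 v2 (z + u2 * Real.log 2) (by nlinarith)
  have g3 := up_iter (by linarith) h2 u1 z hzm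
  have g4 := up_iter (by linarith) h3 v1 (z + u1 * Real.log 2) (by nlinarith)
  have e1 : z + u2 * Real.log 2 + v2 * Real.log 3 = t := by rw [hz]; ring
  have e2 : t + ((u1 - u2 : ℝ) * Real.log 2 + (v1 - v2 : ℝ) * Real.log 3) =
      z + u1 * Real.log 2 + v1 * Real.log 3 := by rw [hz]; ring
  rw [e2]
  rw [e1] at g2
  rw [abs_le] at g1 g2 g3 g4 ⊢
  constructor
  · linarith [g1.1, g1.2, g2.1, g2.2, g3.1, g3.2, g4.1, g4.2]
  · linarith [g1.1, g1.2, g2.1, g2.2, g3.1, g3.2, g4.1, g4.2]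

end Pool.Agent.TH237.RT
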